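import Pool.Agent.H525.EX.Stm5
import Pool.Agent.H236.QF.RR
import Pool.Agent.H277.QF.EX

/-!
# The theorem of Riemann and Roch for the lattice `b ∣ x + τ y`, unweighted
-/

set_option autoImplicit false

namespace Pool.Agent.H134.EX

open Polynomial
open Pool.Agent.H525.QF Pool.Agent.H525.EX
open scoped Classical

section sym

variable {K : Type} [Field K] [Fintype K]

/-- The number of the small elements of the lattice. -/
noncomputable def be (b τ : K[X]) (N : ℤ) : ℝ :=
  if N < 0 then 1 else (L ((N + 1) / 2).toNat (N / 2).toNat b τ : ℝ)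

theorem be_neg (b τ : K[X]) {N : ℤ} (h : N < 0) : be b τ N = 1 := if_pos h

theorem be_nat (b τ : K[X]) {N : ℤ} (a c : ℕ) (h : N = a + c) (h1 : c ≤ a) (h2 : a ≤ c + 1) :
    be b τ N = (L a c b τ : ℝ) := by
  unfold be
  rw [if_neg (by omega)]
  have e1 : ((N + 1) / 2).toNat = a := by omega
  have e2 : (N / 2).toNat = c := by omega
  rw [e1, e2]

theorem exists_ac (N : ℤ) (h : 0 ≤ N) : ∃ a c : ℕ, N = a + c ∧ c ≤ a ∧ a ≤ c + 1 :=
  ⟨((N + 1) / 2).toNat, (N / 2).toNat, by omega, by omega, by omega⟩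

theorem card_ne : (Fintype.card K : ℝ) ≠ 0 := by
  have h : Fintype.card K ≠ 0 := Fintype.card_ne_zero
  exact_mod_cast h

theorem fe {b : K[X]} (τ : K[X]) {l : ℕ} (hb : b.Monic)
    (hl : b.natDegree = l) (N : ℤ) :
    be b τ N * (Fintype.card K : ℝ) ^ (l : ℤ) =
      (Fintype.card K : ℝ) ^ N * be b τ (2 * l - N) := by
  have hq : (Fintype.card K : ℝ) ≠ 0 := card_ne
  have big : ∀ N : ℤ, 2 * l < N →
      be b τ N * (Fintype.card K : ℝ) ^ (l : ℤ) = (Fintype.card K : ℝ) ^ N := by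
    intro N hN
    obtain ⟨a, c, h, h1, h2⟩ := exists_ac N (by omega)
    rw [be_nat b τ a c h h1 h2]
    have h3 := (Pool.Agent.H277.QF.t_ex K b τ l a (lt K c) hb hl (by omega)).1
    rw [card_lt, ← pow_add] at h3
    have h4 : ((L a c b τ : ℕ) : ℝ) * (Fintype.card K : ℝ) ^ l =
        (Fintype.card K : ℝ) ^ (a + c) := by
      unfold L
      exact_mod_cast h3
    have h5 : N = ((a + c : ℕ) : ℤ) := by
      rw [h]
      push_cast
      rfl
    rw [zpow_natCast, h4, h5, zpow_natCast]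
  by_cases hN : N < 0
  · have h1 := big (2 * l - N) (by omega)
    rw [be_neg b τ hN, one_mul]
    have h6 : ((Fintype.card K : ℝ) ^ N * be b τ (2 * l - N)) * (Fintype.card K : ℝ) ^ (l : ℤ) =
        (Fintype.card K : ℝ) ^ (l : ℤ) * (Fintype.card K : ℝ) ^ (l : ℤ) := by
      rw [mul_assoc, h1, ← zpow_add₀ hq, ← zpow_add₀ hq]
      congr 1
      ring
    exact (mul_right_cancel₀ (zpow_ne_zero _ hq) h6).symm
  · by_cases hN2 : 2 * l < N
    · rw [be_neg b τ (N := 2 * l - N) (by omega), mul_one]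
      exact big N hN2
    · obtain ⟨a, c, h, h1, h2⟩ := exists_ac N (by omega)
      have h3 := Pool.Agent.H236.QF.t_rr K b τ l a c hb hl (by omega) (by omega)
      rw [be_nat b τ a c h h1 h2, be_nat b τ (N := 2 * l - N) (l - c) (l - a) (by omega)
        (by omega) (by omega)]
      have h5 : N = ((a + c : ℕ) : ℤ) := by
        rw [h]
        push_cast
        rfl
      rw [h5, zpow_natCast, zpow_natCast]
      exact_mod_cast h3

theorem cast_card : ((Fintype.card K - 1 : ℕ) : ℝ) = (Fintype.card K : ℝ) - 1 := by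
  rw [Nat.cast_sub Fintype.card_pos, Nat.cast_one]

theorem scale (b τ : K[X]) (c : K) (hc : c ≠ 0) (v : K[X] × K[X]) :
    b ∣ (C c * v.1, C c * v.2).1 + τ * (C c * v.1, C c * v.2).2 ↔ b ∣ v.1 + τ * v.2 := by
  have h : (C c * v.1, C c * v.2).1 + τ * (C c * v.1, C c * v.2).2 =
      C c * (v.1 + τ * v.2) := by
    simp only
    ring
  rw [h]
  exact (isUnit_C.2 hc.isUnit).dvd_mul_left

theorem sc1 (m : ℕ) (b τ : K[X]) :
    L (m + 1) (m + 1) b τ = L (m + 1) m b τ + (Fintype.card K - 1) *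
      (((lt K (m + 1)) ×ˢ (mon K m)).filter (fun v => b ∣ v.1 + τ * v.2)).card :=
  Pool.Agent.H277.QF.split (fun v => b ∣ v.1 + τ * v.2) (fun c hc v => scale b τ c hc v) (m + 1) m

theorem sc2 (m : ℕ) (b τ : K[X]) :
    L (m + 1) m b τ = L m m b τ + (Fintype.card K - 1) *
      (((mon K m) ×ˢ (lt K m)).filter (fun v => b ∣ v.1 + τ * v.2)).card :=
  Pool.Agent.H277.QF.split' (fun v => b ∣ v.1 + τ * v.2) (fun c hc v => scale b τ c hc v) m m

theorem t1_nat (b τ : K[X]) (n : ℕ) : T1 (fun _ => (1 : ℝ)) b τ (n : ℤ) =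
    ((((lt K (n + 1)) ×ˢ (mon K n)).filter (fun v => b ∣ v.1 + τ * v.2)).card : ℝ) := by
  unfold T1
  rw [if_neg (by omega), Int.toNat_natCast, Finset.sum_const, nsmul_eq_mul, mul_one]

theorem t0_nat (b τ : K[X]) (n : ℕ) : T0 (fun _ => (1 : ℝ)) b τ (n : ℤ) =
    ((((mon K n) ×ˢ (lt K n)).filter (fun v => b ∣ v.1 + τ * v.2)).card : ℝ) := by
  unfold T0
  rw [if_neg (by omega), Int.toNat_natCast, Finset.sum_const, nsmul_eq_mul, mul_one]

theorem t1_neg (b τ : K[X]) {m : ℤ} (h : m < 0) : T1 (fun _ => (1 : ℝ)) b τ m = 0 := by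
  unfold T1
  rw [if_pos h]

theorem t0_neg (b τ : K[X]) {m : ℤ} (h : m < 0) : T0 (fun _ => (1 : ℝ)) b τ m = 0 := by
  unfold T0
  rw [if_pos h]

theorem aii (b τ : K[X]) (m : ℤ) :
    ((Fintype.card K : ℝ) - 1) * T0 (fun _ => (1 : ℝ)) b τ m =
      be b τ (2 * m + 1) - be b τ (2 * m) := by
  by_cases h : m < 0
  · rw [t0_neg b τ h, be_neg b τ (by omega), be_neg b τ (by omega)]
    ring
  · obtain ⟨n, rfl⟩ := Int.eq_ofNat_of_zero_le (not_lt.1 h)
    have h1 := sc2 n b τ
    rw [be_nat b τ (n + 1) n (by push_cast; ring) (by omega) (by omega),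
      be_nat b τ n n (by ring) le_rfl (by omega), t0_nat, h1]
    push_cast [cast_card]
    ring

theorem L_zero (b τ : K[X]) : L 0 0 b τ = 1 := by
  unfold L
  have h0 : ((lt K 0) ×ˢ (lt K 0)).filter (fun v => b ∣ v.1 + τ * v.2) =
      {((0 : K[X]), (0 : K[X]))} := by
    ext v
    rw [Finset.mem_filter, Finset.mem_product, mem_lt, mem_lt, Finset.mem_singleton]
    have hz : ∀ p : K[X], p.degree < ((0 : ℕ) : WithBot ℕ) ↔ p = 0 := by
      intro p
      rw [degree_lt_iff_coeff_zero]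
      constructor
      · intro h
        ext j
        rw [h j (Nat.zero_le j), coeff_zero]
      · rintro rfl j _
        exact coeff_zero j
    rw [hz, hz]
    constructor
    · rintro ⟨⟨h1, h2⟩, -⟩
      exact Prod.ext h1 h2
    · rintro rfl
      refine ⟨⟨rfl, rfl⟩, ?_⟩
      show b ∣ (0 : K[X]) + τ * 0
      rw [mul_zero, add_zero]
      exact dvd_zero b
  rw [h0, Finset.card_singleton]

theorem ai (b τ : K[X]) (m : ℤ) :
    ((Fintype.card K : ℝ) - 1) * T1 (fun _ => (1 : ℝ)) b τ m =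
      be b τ (2 * m + 2) - be b τ (2 * m + 1) := by
  by_cases h : m < 0
  · rw [t1_neg b τ h, be_neg b τ (N := 2 * m + 1) (by omega)]
    by_cases hm : m = -1
    · rw [hm, be_nat b τ 0 0 (by norm_num) le_rfl (by omega), L_zero]
      norm_num
    · rw [be_neg b τ (by omega)]
      ring
  · obtain ⟨n, rfl⟩ := Int.eq_ofNat_of_zero_le (not_lt.1 h)
    have h1 := sc1 n b τ
    rw [be_nat b τ (N := 2 * (n : ℤ) + 1) (n + 1) n (by push_cast; ring) (by omega) (by omega),
      be_nat b τ (N := 2 * (n : ℤ) + 2) (n + 1) (n + 1) (by push_cast; ring) le_rfl (by omega),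
      t1_nat, h1]
    push_cast [cast_card]
    ring

theorem dd {b : K[X]} (τ : K[X]) {l : ℕ} (hb : b.Monic)
    (hl : b.natDegree = l) (N : ℤ) :
    be b τ (N + 1) - (1 + (Fintype.card K : ℝ)) * be b τ N +
        (Fintype.card K : ℝ) * be b τ (N - 1) =
      (Fintype.card K : ℝ) ^ (N - l) * (be b τ (2 * l - N + 1) -
        (1 + (Fintype.card K : ℝ)) * be b τ (2 * l - N) +
        (Fintype.card K : ℝ) * be b τ (2 * l - N - 1)) := by
  have hq : (Fintype.card K : ℝ) ≠ 0 := card_ne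
  have key : ∀ N : ℤ, be b τ N = (Fintype.card K : ℝ) ^ (N - l) * be b τ (2 * l - N) := by
    intro N
    have h1 := fe τ hb hl N
    rw [zpow_sub₀ hq, div_mul_eq_mul_div, eq_div_iff (zpow_ne_zero _ hq)]
    exact h1
  have k1 := key (N + 1)
  have k2 := key N
  have k3 := key (N - 1)
  have e1 : (Fintype.card K : ℝ) ^ (N + 1 - l) =
      (Fintype.card K : ℝ) ^ (N - l) * (Fintype.card K : ℝ) := by
    rw [← zpow_add_one₀ hq]
    congr 1
    ring
  have e3 : (Fintype.card K : ℝ) * (Fintype.card K : ℝ) ^ (N - 1 - l) =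
      (Fintype.card K : ℝ) ^ (N - l) := by
    rw [← zpow_one_add₀ hq]
    congr 1
    ring
  have a1 : 2 * (l : ℤ) - (N + 1) = 2 * l - N - 1 := by ring
  have a3 : 2 * (l : ℤ) - (N - 1) = 2 * l - N + 1 := by ring
  rw [k1, k2, k3, e1, a1, a3, ← mul_assoc (Fintype.card K : ℝ) ((Fintype.card K : ℝ) ^ (N - 1 - l)),
    e3]
  ring

end sym

theorem t_symU : Pool.Agent.H525.EX.S_symU := by
  intro K _ _ b τ l hb hl m
  have hq1 : (Fintype.card K : ℝ) - 1 ≠ 0 := by
    have h : 1 < Fintype.card K := Fintype.one_lt_card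
    have h' : (1 : ℝ) < Fintype.card K := by exact_mod_cast h
    linarith
  constructor
  · apply mul_left_cancel₀ hq1
    have h := dd τ hb hl (2 * m)
    have g1 := aii b τ m
    have g2 := ai b τ (m - 1)
    have g3 := aii b τ (l - m)
    have g4 := ai b τ (l - m - 1)
    have e1 : 2 * (m - 1) + 2 = 2 * m := by ring
    have e2 : 2 * (m - 1) + 1 = 2 * m - 1 := by ring
    have e3 : 2 * ((l : ℤ) - m) + 1 = 2 * l - 2 * m + 1 := by ring
    have e4 : 2 * ((l : ℤ) - m) = 2 * l - 2 * m := by ring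
    have e5 : 2 * ((l : ℤ) - m - 1) + 2 = 2 * l - 2 * m := by ring
    have e6 : 2 * ((l : ℤ) - m - 1) + 1 = 2 * l - 2 * m - 1 := by ring
    rw [e1, e2] at g2
    rw [e3, e4] at g3
    rw [e5, e6] at g4
    have L1 : ((Fintype.card K : ℝ) - 1) * (T0 (fun _ => (1 : ℝ)) b τ m -
        (Fintype.card K : ℝ) * T1 (fun _ => (1 : ℝ)) b τ (m - 1)) =
        be b τ (2 * m + 1) - (1 + (Fintype.card K : ℝ)) * be b τ (2 * m) +
          (Fintype.card K : ℝ) * be b τ (2 * m - 1) := by
      rw [mul_sub, g1]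
      have : ((Fintype.card K : ℝ) - 1) *
          ((Fintype.card K : ℝ) * T1 (fun _ => (1 : ℝ)) b τ (m - 1)) =
        (Fintype.card K : ℝ) * (be b τ (2 * m) - be b τ (2 * m - 1)) := by
        rw [← g2]
        ring
      rw [this]
      ring
    have L2 : ((Fintype.card K : ℝ) - 1) *
        (T0 (fun _ => (1 : ℝ)) b τ (l - m) -
          (Fintype.card K : ℝ) * T1 (fun _ => (1 : ℝ)) b τ (l - m - 1)) =
        be b τ (2 * l - 2 * m + 1) - (1 + (Fintype.card K : ℝ)) * be b τ (2 * l - 2 * m) +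
          (Fintype.card K : ℝ) * be b τ (2 * l - 2 * m - 1) := by
      rw [mul_sub, g3]
      have : ((Fintype.card K : ℝ) - 1) *
          ((Fintype.card K : ℝ) * T1 (fun _ => (1 : ℝ)) b τ (l - m - 1)) =
        (Fintype.card K : ℝ) * (be b τ (2 * l - 2 * m) - be b τ (2 * l - 2 * m - 1)) := by
        rw [← g4]
        ring
      rw [this]
      ring
    rw [L1, mul_left_comm, L2]
    exact h
  · apply mul_left_cancel₀ hq1
    have h := dd τ hb hl (2 * m + 1)
    have g1 := aii b τ m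
    have g2 := ai b τ m
    have g3 := aii b τ (l - m - 1)
    have g4 := ai b τ (l - m - 1)
    have e0 : 2 * m + 1 + 1 = 2 * m + 2 := by ring
    have e0' : 2 * m + 1 - 1 = 2 * m := by ring
    have e3 : 2 * ((l : ℤ) - m - 1) + 1 = 2 * l - (2 * m + 1) := by ring
    have e4 : 2 * ((l : ℤ) - m - 1) = 2 * l - (2 * m + 1) - 1 := by ring
    have e5 : 2 * ((l : ℤ) - m - 1) + 2 = 2 * l - (2 * m + 1) + 1 := by ring
    rw [e3, e4] at g3
    rw [e3, e5] at g4
    rw [e0, e0'] at h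
    have L1 : ((Fintype.card K : ℝ) - 1) *
        ((Fintype.card K : ℝ) * T0 (fun _ => (1 : ℝ)) b τ m - T1 (fun _ => (1 : ℝ)) b τ m) =
        -(be b τ (2 * m + 2) - (1 + (Fintype.card K : ℝ)) * be b τ (2 * m + 1) +
          (Fintype.card K : ℝ) * be b τ (2 * m)) := by
      have : ((Fintype.card K : ℝ) - 1) * ((Fintype.card K : ℝ) * T0 (fun _ => (1 : ℝ)) b τ m) =
        (Fintype.card K : ℝ) * (be b τ (2 * m + 1) - be b τ (2 * m)) := by
        rw [← g1]
        ring
      rw [mul_sub, this, g2]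
      ring
    have L2 : ((Fintype.card K : ℝ) - 1) *
        ((Fintype.card K : ℝ) * T0 (fun _ => (1 : ℝ)) b τ (l - m - 1) -
          T1 (fun _ => (1 : ℝ)) b τ (l - m - 1)) =
        -(be b τ (2 * l - (2 * m + 1) + 1) -
          (1 + (Fintype.card K : ℝ)) * be b τ (2 * l - (2 * m + 1)) +
          (Fintype.card K : ℝ) * be b τ (2 * l - (2 * m + 1) - 1)) := by
      have : ((Fintype.card K : ℝ) - 1) *
          ((Fintype.card K : ℝ) * T0 (fun _ => (1 : ℝ)) b τ (l - m - 1)) =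
        (Fintype.card K : ℝ) * (be b τ (2 * l - (2 * m + 1)) -
          be b τ (2 * l - (2 * m + 1) - 1)) := by
        rw [← g3]
        ring
      rw [mul_sub, this, g4]
      ring
    rw [L1, mul_left_comm, L2, h]
    ring

end Pool.Agent.H134.EX
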